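import Pool.Agent.Y57.FD.Base

/-!
# The Sato-Tate conjecture for hyperelliptic curves whose coefficients are integers with few changed digits

Let the integers `n 0, ..., n (d - 1)` arise from arbitrary integers by changing a few digits.  For all but a small proportion of the
choices the following holds **simultaneously for all** hyperelliptic curves `y ^ 2 = f(x)`, `deg f = D`, whose coefficients are
polynomials in `n` with at most `T` terms, with coefficients and exponents up to `x ^ A`, for all boxes and for the primes `p ≤ x` from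
arbitrary families of sets (for instance all short intervals and arithmetic progressions): the number of primes `p` of good reduction for
which the vector of the coefficients `a_{1,p}, ..., a_{g,p}` of the normalised `L`-polynomial lies in the box is the expected one `V`,
the sum of the local proportions, with an error of at most `(max 1 V) ^ (1 / 2) x ^ δ`.
-/

set_option autoImplicit false

namespace Pool.Agent.Results.MP_3da4c4_nt.FewDigitCurves

open Finset

/-- The number of the points over the field `k` of the smooth projective curve with the affine equation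
`y ^ 2 = a 0 + a 1 x + ... + a D x ^ D`: the affine points, and one point at infinity if `D` is odd, or the solutions `z` of
`z ^ 2 = a D` if `D` is even. -/
noncomputable def points (k : Type) [Field k] {D : ℕ} (a : Fin (D + 1) → k) : ℕ :=
  Nat.card {P : k × k // P.2 ^ 2 = ∑ i, a i * P.1 ^ (i : ℕ)} +
    if Odd D then 1 else Nat.card {z : k // z ^ 2 = a (Fin.last D)}

/-- `N_j - 1 - p ^ j`, where `N_j` is the number of the points over the field with `p ^ j` elements. -/
noncomputable def trace (p : ℕ) [Fact p.Prime] {D : ℕ} (a : Fin (D + 1) → ℤ) (j : ℕ) : ℝ :=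
  (points (GaloisField p j) (fun i => ((a i : ℤ) : GaloisField p j)) : ℝ) - 1 - (p : ℝ) ^ j

/-- The coefficients `c_i` of `L(T) = (1 - T) (1 - p T) exp(∑ N_j T ^ j / j) = exp(∑ t_j T ^ j / j)`, where `t_j = N_j - 1 - p ^ j`:
`c_0 = 1` and `(i + 1) c_{i + 1} = ∑ j ≤ i, t_{j + 1} c_{i - j}`. -/
noncomputable def coeffL (t : ℕ → ℝ) : ℕ → ℝ
  | 0 => 1
  | i + 1 => (∑ j : Fin (i + 1), t (j + 1) * coeffL t (i - j)) / (i + 1)

open Classical in
/-- The coefficient `a_{k,p}` of the normalised `L`-polynomial `L(p ^ (- 1 / 2) T)` of the curve (`0` if `p` is not prime). -/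
noncomputable def coeff (k p : ℕ) {D : ℕ} (a : Fin (D + 1) → ℤ) : ℝ :=
  if h : p.Prime then haveI : Fact p.Prime := ⟨h⟩; coeffL (trace p a) k / (p : ℝ) ^ ((k : ℝ) / 2) else 0

/-- `p` is odd and the polynomial modulo `p` is separable and has degree `D`; then the curve has good reduction at `p`. -/
def Smooth (p : ℕ) {D : ℕ} (a : Fin (D + 1) → ℤ) : Prop :=
  p ≠ 2 ∧ ¬ (p : ℤ) ∣ a (Fin.last D) ∧
    (∑ i, Polynomial.C ((a i : ℤ) : ZMod p) * Polynomial.X ^ (i : ℕ) : Polynomial (ZMod p)).Separable

/-- The coefficients of the curve: the values `∑ t < T, B i t * ∏ l, n l ^ k i t l` of polynomials with `T` terms. -/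
def fam {T d D : ℕ} (B : Fin (D + 1) → Fin T → ℤ) (k : Fin (D + 1) → Fin T → Fin d → ℕ) (n : Fin d → ℕ) : Fin (D + 1) → ℤ :=
  fun i => ∑ t, B i t * ∏ l, (n l : ℤ) ^ k i t l

/-- The curve is smooth modulo `p` and `α j ≤ a_{j + 1, p} ≤ β j` for all `j < g`. -/
def InBox {g D : ℕ} (α β : Fin g → ℝ) (p : ℕ) (a : Fin (D + 1) → ℤ) : Prop :=
  Smooth p a ∧ ∀ j : Fin g, α j ≤ coeff (j + 1) p a ∧ coeff (j + 1) p a ≤ β j

open Classical in
/-- The number of the primes `p ∈ P` with the property. -/
noncomputable def count {T d g D : ℕ} (P : Finset ℕ) (B : Fin (D + 1) → Fin T → ℤ) (k : Fin (D + 1) → Fin T → Fin d → ℕ)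
    (α β : Fin g → ℝ) (n : Fin d → ℕ) : ℕ :=
  (P.filter (fun p => InBox α β p (fam B k n))).card

open Classical in
/-- The expected number: the sum over the primes `p ∈ P` of the proportion of the vectors `u` of residues modulo `p` with the
property. -/
noncomputable def expected {T d g D : ℕ} (P : Finset ℕ) (B : Fin (D + 1) → Fin T → ℤ) (k : Fin (D + 1) → Fin T → Fin d → ℕ)
    (α β : Fin g → ℝ) : ℝ :=
  ∑ p ∈ P, (((Fintype.piFinset (fun _ : Fin d => range p)).filter (fun u => InBox α β p (fam B k u))).card : ℝ) / (p : ℝ) ^ d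

/-- For all curves with coefficients given by polynomials with at most `T` terms, with coefficients and exponents up to `x ^ A`, all
boxes and all sets `P ∈ F` of primes the count is the expected number up to its square root times `x ^ δ`. -/
def Good {d : ℕ} (D g T A : ℕ) (δ : ℝ) (F : Finset (Finset ℕ)) (x : ℕ) (n : Fin d → ℕ) : Prop :=
  ∀ P ∈ F, ∀ (B : Fin (D + 1) → Fin T → ℤ) (k : Fin (D + 1) → Fin T → Fin d → ℕ) (α β : Fin g → ℝ),
    (∀ i t, |B i t| ≤ (x : ℤ) ^ A) → (∀ i t l, k i t l ≤ x ^ A) →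
    |(count P B k α β n : ℝ) - expected P B k α β| ≤ Real.sqrt (max 1 (expected P B k α β)) * (x : ℝ) ^ δ

/-- The digit number `i` (counted from the right, beginning with `0`) of `n` in base `b`. -/
def digit (b i n : ℕ) : ℕ := n / b ^ i % b

/-- The number which arises from the number `N` with at most `K` digits in base `b`, if for every `i ∈ S`
the digit number `i` is replaced by `f i`. -/
def change (b K N : ℕ) (f : ℕ → ℕ) (S : Finset ℕ) : ℕ :=
  ∑ i ∈ range K, (if i ∈ S then f i else digit b i N) * b ^ i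

open Classical in
/-- The number of the choices of `r l` of `K l` positions for all `l < d` for which the vector of the numbers obtained by
changing the digits of the `N l` at the chosen positions (according to `f l`) does not have the property `E`. -/
noncomputable def exceptions {d : ℕ} (b : ℕ) (K r N : Fin d → ℕ) (f : Fin d → ℕ → ℕ) (E : (Fin d → ℕ) → Prop) : ℕ :=
  ((Fintype.piFinset (fun l => powersetCard (r l) (range (K l)))).filter
    (fun S => ¬ E (fun l => change b (K l) (N l) (f l) (S l)))).card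

lemma exc_eq {d : ℕ} (b : ℕ) (K r N : Fin d → ℕ) (f : Fin d → ℕ → ℕ) (E : (Fin d → ℕ) → Prop) :
    exceptions b K r N f E = Pool.Agent.Y57.FD.exceptions b K r N f E := rfl

/-! ### Dependence on the residues -/

lemma coeff_congr {k p D : ℕ} {a a' : Fin (D + 1) → ℤ} (h : ∀ i, ((a i : ℤ) : ZMod p) = ((a' i : ℤ) : ZMod p)) :
    coeff k p a = coeff k p a' := by
  unfold coeff
  by_cases hp : p.Prime
  · rw [dif_pos hp, dif_pos hp]
    haveI : Fact p.Prime := ⟨hp⟩
    have h1 : trace p a = trace p a' := by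
      funext j
      unfold trace
      have h2 : (fun i => ((a i : ℤ) : GaloisField p j)) = fun i => ((a' i : ℤ) : GaloisField p j) := by
        funext i
        have h3 := h i
        rw [ZMod.intCast_eq_intCast_iff] at h3
        exact (CharP.intCast_eq_intCast (GaloisField p j) p).2 h3
      rw [h2]
    show coeffL (trace p a) k / _ = coeffL (trace p a') k / _
    rw [h1]
  · rw [dif_neg hp, dif_neg hp]

lemma smooth_congr {p D : ℕ} {a a' : Fin (D + 1) → ℤ} (h : ∀ i, ((a i : ℤ) : ZMod p) = ((a' i : ℤ) : ZMod p)) :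
    Smooth p a ↔ Smooth p a' := by
  unfold Smooth
  rw [← ZMod.intCast_zmod_eq_zero_iff_dvd, ← ZMod.intCast_zmod_eq_zero_iff_dvd, h (Fin.last D)]
  simp only [h]

lemma box_congr {g p D : ℕ} {α β : Fin g → ℝ} {a a' : Fin (D + 1) → ℤ} (h : ∀ i, ((a i : ℤ) : ZMod p) = ((a' i : ℤ) : ZMod p)) :
    InBox α β p a ↔ InBox α β p a' := by
  unfold InBox
  rw [smooth_congr h]
  apply and_congr_right
  intro _
  apply forall_congr'
  intro j
  rw [coeff_congr h]

lemma fam_mod {T d D : ℕ} (B : Fin (D + 1) → Fin T → ℤ) (k : Fin (D + 1) → Fin T → Fin d → ℕ) (p : ℕ) (n : Fin d → ℕ)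
    (i : Fin (D + 1)) : ((fam B k n i : ℤ) : ZMod p) = ((fam B k (fun l => n l % p) i : ℤ) : ZMod p) := by
  unfold fam
  push_cast
  rfl

/-! ### Thresholds -/

lemma thr_low (V : Finset ℝ) (top : ℝ) (htop : ∀ v ∈ V, v < top) (α : ℝ) : ∃ α' ∈ insert top V, ∀ v ∈ V, α ≤ v ↔ α' ≤ v := by
  classical
  rcases (V.filter (fun v => α ≤ v)).eq_empty_or_nonempty with h | h
  · refine ⟨top, mem_insert_self _ _, fun v hv => ?_⟩
    constructor
    · intro h2
      have h3 : v ∈ V.filter (fun v => α ≤ v) := mem_filter.2 ⟨hv, h2⟩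
      rw [h] at h3
      simp at h3
    · intro h2
      exact absurd h2 (not_le.2 (htop v hv))
  · obtain ⟨m, hm⟩ : ∃ m, m = (V.filter (fun v => α ≤ v)).min' h := ⟨_, rfl⟩
    have hm1 : m ∈ V.filter (fun v => α ≤ v) := by rw [hm]; exact min'_mem _ _
    rw [mem_filter] at hm1
    refine ⟨m, mem_insert_of_mem hm1.1, fun v hv => ?_⟩
    constructor
    · intro h2
      rw [hm]
      exact min'_le _ _ (mem_filter.2 ⟨hv, h2⟩)
    · intro h2
      exact hm1.2.trans h2

lemma thr_high (V : Finset ℝ) (bot : ℝ) (hbot : ∀ v ∈ V, bot < v) (β : ℝ) : ∃ β' ∈ insert bot V, ∀ v ∈ V, v ≤ β ↔ v ≤ β' := by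
  classical
  rcases (V.filter (fun v => v ≤ β)).eq_empty_or_nonempty with h | h
  · refine ⟨bot, mem_insert_self _ _, fun v hv => ?_⟩
    constructor
    · intro h2
      have h3 : v ∈ V.filter (fun v => v ≤ β) := mem_filter.2 ⟨hv, h2⟩
      rw [h] at h3
      simp at h3
    · intro h2
      exact absurd h2 (not_le.2 (hbot v hv))
  · obtain ⟨m, hm⟩ : ∃ m, m = (V.filter (fun v => v ≤ β)).max' h := ⟨_, rfl⟩
    have hm1 : m ∈ V.filter (fun v => v ≤ β) := by rw [hm]; exact max'_mem _ _
    rw [mem_filter] at hm1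
    refine ⟨m, mem_insert_of_mem hm1.1, fun v hv => ?_⟩
    constructor
    · intro h2
      rw [hm]
      exact le_max' _ _ (mem_filter.2 ⟨hv, h2⟩)
    · intro h2
      exact h2.trans hm1.2

/-- the values of the coefficients -/
noncomputable def values (g D x : ℕ) : Finset ℝ := by
  classical
  exact ((univ : Finset (Fin g)) ×ˢ (range (x + 1)) ×ˢ (Fintype.piFinset (fun _ : Fin (D + 1) => range (x + 1)))).image
    (fun w => coeff (w.1 + 1) w.2.1 (fun i => (w.2.2 i : ℤ)))

lemma values_card (g D x : ℕ) : (values g D x).card ≤ g * (x + 1) ^ (D + 2) := by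
  classical
  unfold values
  refine card_image_le.trans ?_
  rw [card_product, card_product, card_univ, Fintype.card_fin, card_range, Fintype.card_piFinset_const, card_range]
  rw [← pow_succ']

lemma mem_values {g D x p : ℕ} (hp : p.Prime) (hpx : p ≤ x) (j : Fin g) (a : Fin (D + 1) → ℤ) : coeff (j + 1) p a ∈ values g D x := by
  classical
  unfold values
  rw [mem_image]
  have hp0 : (0 : ℤ) < p := by exact_mod_cast hp.pos
  refine ⟨(j, p, fun i => (a i % p).toNat), ?_, ?_⟩
  · rw [mem_product, mem_product, Fintype.mem_piFinset]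
    refine ⟨mem_univ _, ?_, fun i => ?_⟩
    · rw [mem_range]
      show p < x + 1
      omega
    · rw [mem_range]
      show (a i % p).toNat < x + 1
      have h1 := Int.emod_lt_of_pos (a i) hp0
      have h2 := Int.emod_nonneg (a i) hp0.ne'
      omega
  · apply coeff_congr
    intro i
    show ((((a i % p).toNat : ℕ) : ℤ) : ZMod p) = ((a i : ℤ) : ZMod p)
    rw [Int.toNat_of_nonneg (Int.emod_nonneg (a i) hp0.ne'), ZMod.intCast_eq_intCast_iff]
    exact Int.mod_modEq (a i) p

/-- the possible thresholds -/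
noncomputable def thr (g D x : ℕ) : Finset ℝ :=
  insert ((∑ v ∈ values g D x, |v|) + 1) (insert (-(∑ v ∈ values g D x, |v|) - 1) (values g D x))

lemma thr_card (g D x : ℕ) (hx : 2 ≤ x) : (thr g D x).card ≤ x ^ (g + 2 * (D + 2) + 2) := by
  have h1 : (thr g D x).card ≤ (values g D x).card + 2 := by
    unfold thr
    have h2 := card_insert_le ((∑ v ∈ values g D x, |v|) + 1) (insert (-(∑ v ∈ values g D x, |v|) - 1) (values g D x))
    have h3 := card_insert_le (-(∑ v ∈ values g D x, |v|) - 1) (values g D x)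
    omega
  have h2 := values_card g D x
  have h3 : g * (x + 1) ^ (D + 2) ≤ x ^ (g + 2 * (D + 2)) := by
    have h4 : g ≤ x ^ g := by
      have h5 : g < 2 ^ g := Nat.lt_two_pow_self
      have h6 : 2 ^ g ≤ x ^ g := Nat.pow_le_pow_left hx g
      omega
    have h7 : x + 1 ≤ x ^ 2 := by nlinarith
    calc g * (x + 1) ^ (D + 2) ≤ x ^ g * (x ^ 2) ^ (D + 2) := Nat.mul_le_mul h4 (Nat.pow_le_pow_left h7 _)
      _ = x ^ (g + 2 * (D + 2)) := by rw [← pow_mul, ← pow_add]
  have h8 : 1 ≤ x ^ (g + 2 * (D + 2)) := Nat.one_le_pow _ _ (by omega)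
  have h9 : x ^ (g + 2 * (D + 2)) * 4 ≤ x ^ (g + 2 * (D + 2)) * (x * x) := Nat.mul_le_mul_left _ (by nlinarith)
  calc (thr g D x).card ≤ x ^ (g + 2 * (D + 2)) * 4 := by omega
    _ ≤ x ^ (g + 2 * (D + 2)) * (x * x) := h9
    _ = x ^ (g + 2 * (D + 2) + 2) := by ring

lemma thr_box (g D x : ℕ) (α β : Fin g → ℝ) : ∃ α' β' : Fin g → ℝ, (∀ j, α' j ∈ thr g D x) ∧ (∀ j, β' j ∈ thr g D x) ∧
    ∀ p, p.Prime → p ≤ x → ∀ a : Fin (D + 1) → ℤ, InBox α β p a ↔ InBox α' β' p a := by
  have hV : ∀ v ∈ values g D x, |v| ≤ ∑ v ∈ values g D x, |v| := fun v hv =>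
    single_le_sum (f := fun v => |v|) (fun _ _ => abs_nonneg _) hv
  have h1 : ∀ j, ∃ α' ∈ insert ((∑ v ∈ values g D x, |v|) + 1) (values g D x), ∀ v ∈ values g D x, α j ≤ v ↔ α' ≤ v :=
    fun j => thr_low (values g D x) _ (fun v hv => by have := hV v hv; have := le_abs_self v; linarith) (α j)
  have h2 : ∀ j, ∃ β' ∈ insert (-(∑ v ∈ values g D x, |v|) - 1) (values g D x), ∀ v ∈ values g D x, v ≤ β j ↔ v ≤ β' :=
    fun j => thr_high (values g D x) _ (fun v hv => by have := hV v hv; have := neg_abs_le v; linarith) (β j)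
  choose α' hα' hα using h1
  choose β' hβ' hβ using h2
  refine ⟨α', β', fun j => ?_, fun j => ?_, fun p hp hpx a => ?_⟩
  · unfold thr
    rcases mem_insert.1 (hα' j) with h | h
    · rw [h]
      exact mem_insert_self _ _
    · exact mem_insert_of_mem (mem_insert_of_mem h)
  · unfold thr
    exact mem_insert_of_mem (hβ' j)
  · unfold InBox
    apply and_congr_right
    intro _
    apply forall_congr'
    intro j
    have h3 := mem_values (D := D) hp hpx j a
    rw [hα j _ h3, hβ j _ h3]

/-- **The Sato-Tate conjecture for hyperelliptic curves with few changed digits.**  Let a base `b ≥ 2`, the numbers `d ≥ 1` of the integers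
which vary, `D` (the degree), `g` (the number of coefficients considered, for instance the genus), `T` (the number of terms), `δ > 0` and an
integer `A ≥ 0` be given.  There are `c > 0` and `y₀` such that for all integers `r l`, `K l`, `y` with `2 r l ≤ K l` and `y ≥ y₀` the
following holds.

Let `0 ≤ N l < b ^ K l` be arbitrary integers, prescribe for every position `j` a digit `f l j` different from the digit of `N l` in
base `b`, and let `F x` be for every `x` a family of at most `x ^ A` arbitrary sets of primes up to `x`.  If one chooses `r l` of the `K l`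
positions and replaces the digits of `N l` at these positions, then for all but at most a proportion `1 / y ^ A` of the choices the vector
`n` obtained has the following property for all integers `x` with `y ≤ x ≤ exp (c r l)` for all `l`: for all `P ∈ F x`, all curves
`y ^ 2 = f(x)`, `deg f = D`, whose coefficients are polynomials with `T` terms in `n`, with coefficients and exponents up to `x ^ A`, and
all real `α j`, `β j`, `j < g`, the number of the primes `p ∈ P` of good reduction with `α j ≤ a_{j + 1, p} ≤ β j` for all `j < g` differs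
from its expected value `V` by at most `(max 1 V) ^ (1 / 2) x ^ δ`. -/
theorem result (b d D g T : ℕ) (hb : 2 ≤ b) (hd : 1 ≤ d) (δ : ℝ) (hδ : 0 < δ) (A : ℕ) : ∃ c : ℝ, 0 < c ∧ ∃ y₀ : ℕ,
    ∀ (K r : Fin d → ℕ) (y : ℕ), (∀ l, 2 * r l ≤ K l) → y₀ ≤ y →
    ∀ N : Fin d → ℕ, (∀ l, N l < b ^ K l) → ∀ f : Fin d → ℕ → ℕ, (∀ l j, f l j < b ∧ f l j ≠ digit b j (N l)) →
    ∀ F : ℕ → Finset (Finset ℕ), (∀ x, (F x).card ≤ x ^ A) → (∀ x, ∀ P ∈ F x, ∀ p ∈ P, p.Prime ∧ p ≤ x) →
      (exceptions b K r N f (fun n => ∀ x : ℕ, y ≤ x → (∀ l, (x : ℝ) ≤ Real.exp (c * r l)) → Good D g T A δ (F x) x n) : ℝ) ≤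
        1 / (y : ℝ) ^ A * ∏ l, ((K l).choose (r l) : ℝ) := by
  classical
  obtain ⟨c, hc, y₀, h⟩ := Pool.Agent.Y57.FD.law b d hb hd δ hδ A
    (A + ((A + 2) * (T * (D + 1)) + ((A + 1) * (d * (T * (D + 1))) + ((g + 2 * (D + 2) + 2) * g + (g + 2 * (D + 2) + 2) * g))))
  refine ⟨c, hc, y₀ + 2, fun K r y hrK hy N hN f hf F hF hFP => ?_⟩
  rw [exc_eq]
  refine h K r y hrK (by omega) N hN f hf
    (Finset ℕ × (Fin (D + 1) → Fin T → ℤ) × (Fin (D + 1) → Fin T → Fin d → ℕ) × (Fin g → ℝ) × (Fin g → ℝ))
    (fun x => (F x) ×ˢ ((Fintype.piFinset (fun _ : Fin (D + 1) => Fintype.piFinset (fun _ : Fin T => Icc (-((x : ℤ) ^ A)) ((x : ℤ) ^ A)))) ×ˢ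
      ((Fintype.piFinset (fun _ : Fin (D + 1) => Fintype.piFinset (fun _ : Fin T => Fintype.piFinset (fun _ : Fin d => range (x ^ A + 1))))) ×ˢ
      ((Fintype.piFinset (fun _ : Fin g => thr g D x)) ×ˢ (Fintype.piFinset (fun _ : Fin g => thr g D x)))))) ?_
    (fun x l => if l.1 ∈ F x then l.1 else ∅) ?_
    (fun l p n => InBox l.2.2.2.1 l.2.2.2.2 p (fam l.2.1 l.2.2.1 n)) ?_ _ ?_
  · intro x hx
    rw [card_product, card_product, card_product, card_product]
    simp only [Fintype.card_piFinset_const, Int.card_Icc, card_range]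
    have hxA : 1 ≤ x ^ A := Nat.one_le_pow _ _ (by omega)
    have e1 : ((x : ℤ) ^ A + 1 - -((x : ℤ) ^ A)).toNat = 2 * x ^ A + 1 := by
      have : ((x : ℤ) ^ A + 1 - -((x : ℤ) ^ A)) = ((2 * x ^ A + 1 : ℕ) : ℤ) := by
        push_cast
        ring
      rw [this, Int.toNat_natCast]
    rw [e1]
    have e2 : 2 * x ^ A + 1 ≤ x ^ (A + 2) := by
      have : x ^ A * 4 ≤ x ^ A * (x * x) := Nat.mul_le_mul_left _ (by nlinarith)
      calc 2 * x ^ A + 1 ≤ x ^ A * 4 := by omega
        _ ≤ x ^ A * (x * x) := this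
        _ = x ^ (A + 2) := by ring
    have e3 : x ^ A + 1 ≤ x ^ (A + 1) := by
      have : x ^ A * 2 ≤ x ^ A * x := Nat.mul_le_mul_left _ hx
      calc x ^ A + 1 ≤ x ^ A * 2 := by omega
        _ ≤ x ^ A * x := this
        _ = x ^ (A + 1) := by ring
    have e4 : (thr g D x).card ^ g ≤ x ^ ((g + 2 * (D + 2) + 2) * g) := by
      rw [pow_mul]
      exact Nat.pow_le_pow_left (thr_card g D x hx) g
    rw [pow_add x A, pow_add x ((A + 2) * (T * (D + 1))), pow_add x ((A + 1) * (d * (T * (D + 1)))),
      pow_add x ((g + 2 * (D + 2) + 2) * g) ((g + 2 * (D + 2) + 2) * g)]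
    refine Nat.mul_le_mul (hF x) (Nat.mul_le_mul ?_ (Nat.mul_le_mul ?_ (Nat.mul_le_mul e4 e4)))
    · calc ((2 * x ^ A + 1) ^ T) ^ (D + 1) ≤ ((x ^ (A + 2)) ^ T) ^ (D + 1) :=
            Nat.pow_le_pow_left (Nat.pow_le_pow_left e2 _) _
        _ = x ^ ((A + 2) * (T * (D + 1))) := by
          rw [← pow_mul, ← pow_mul]
    · calc (((x ^ A + 1) ^ d) ^ T) ^ (D + 1) ≤ (((x ^ (A + 1)) ^ d) ^ T) ^ (D + 1) :=
            Nat.pow_le_pow_left (Nat.pow_le_pow_left (Nat.pow_le_pow_left e3 _) _) _
        _ = x ^ ((A + 1) * (d * (T * (D + 1)))) := by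
          rw [← pow_mul, ← pow_mul, ← pow_mul]
  · intro x l p hp
    by_cases hl : l.1 ∈ F x
    · rw [if_pos hl] at hp
      exact hFP x l.1 hl p hp
    · rw [if_neg hl] at hp
      exact absurd hp (notMem_empty p)
  · intro l p _ n
    exact box_congr (fam_mod l.2.1 l.2.2.1 p n)
  · intro n hn x hyx hxr P hP B k α β hB hk
    obtain ⟨α', β', hα, hβ, hab⟩ := thr_box g D x α β
    have h1 := hn x (by omega) hyx hxr (P, B, k, α', β') (by
      rw [mem_product, mem_product, mem_product, mem_product]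
      refine ⟨hP, ?_, ?_, ?_, ?_⟩
      · simp only [Fintype.mem_piFinset, mem_Icc]
        exact fun i t => abs_le.1 (hB i t)
      · simp only [Fintype.mem_piFinset, mem_range]
        exact fun i t l => Nat.lt_succ_of_le (hk i t l)
      · simp only [Fintype.mem_piFinset]
        exact hα
      · simp only [Fintype.mem_piFinset]
        exact hβ)
    simp only [if_pos hP] at h1
    have e1 : count P B k α β n = (P.filter (fun p => InBox α' β' p (fam B k n))).card := by
      unfold count
      congr 1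
      apply filter_congr
      intro p hp
      exact hab p (hFP x P hP p hp).1 (hFP x P hP p hp).2 _
    have e2 : expected P B k α β = ∑ p ∈ P, Pool.Agent.TH894.NE.Pr d p (fun u => InBox α' β' p (fam B k u)) := by
      unfold expected
      apply sum_congr rfl
      intro p hp
      unfold Pool.Agent.TH894.NE.Pr Pool.Agent.TH894.NE.box
      congr 2
      congr 1
      apply filter_congr
      intro u _
      exact hab p (hFP x P hP p hp).1 (hFP x P hP p hp).2 _
    rw [e1, e2]
    exact h1

end Pool.Agent.Results.MP_3da4c4_nt.FewDigitCurves
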