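import Pool.Agent.Y57.FD.Base
import Pool.Agent.Y57.FD.Mom
import Pool.Agent.H341R2.WeilSharp

/-!
# The first moments of the Sato-Tate conjecture for hyperelliptic curves whose coefficients are integers with few changed digits

Let the coefficients `n 0, ..., n (2 g)` arise from arbitrary integers by changing a few digits.  For all but a small proportion of the
choices the curve `y ^ 2 = x ^ (2 g + 1) + n (2 g) x ^ (2 g) + ... + n 0` of genus `g` has the following property: for the primes from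
arbitrary families of sets `P` of primes up to `x` (for instance all short intervals and arithmetic progressions) all the moments of
`a_{1,p}` up to the order `2 g + 1` over the primes of good reduction are the predicted ones, `1, 0, 1, 0, 3, 0, 15, ...`, which are the
first moments of the trace of a random matrix in `USp(2g)`, with the error `|P| ^ (1 / 2) x ^ δ`.

The local moments are computed exactly: for `m ≤ D` the values of a random monic polynomial of degree `D` over a finite field at `m`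
points are independent.  Weil's bound is used for the size of `a_{1,p}`.
-/

set_option autoImplicit false

namespace Pool.Agent.Results.MP_3da4c4_nt.FewDigitMoments

open Finset

/-- The number of the points over the field `k` of the smooth projective curve with the affine equation
`y ^ 2 = a 0 + a 1 x + ... + a D x ^ D`: the affine points, and one point at infinity if `D` is odd, or the solutions `z` of
`z ^ 2 = a D` if `D` is even. -/
noncomputable def points (k : Type) [Field k] {D : ℕ} (a : Fin (D + 1) → k) : ℕ :=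
  Nat.card {P : k × k // P.2 ^ 2 = ∑ i, a i * P.1 ^ (i : ℕ)} +
    if Odd D then 1 else Nat.card {z : k // z ^ 2 = a (Fin.last D)}

/-- `N_j - 1 - p ^ j`, where `N_j` is the number of the points over the field with `p ^ j` elements. -/
noncomputable def trace (p : ℕ) [Fact p.Prime] {D : ℕ} (a : Fin (D + 1) → ℤ) (j : ℕ) : ℝ :=
  (points (GaloisField p j) (fun i => ((a i : ℤ) : GaloisField p j)) : ℝ) - 1 - (p : ℝ) ^ j

/-- The coefficients `c_i` of `L(T) = (1 - T) (1 - p T) exp(∑ N_j T ^ j / j) = exp(∑ t_j T ^ j / j)`, where `t_j = N_j - 1 - p ^ j`: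
`c_0 = 1` and `(i + 1) c_{i + 1} = ∑ j ≤ i, t_{j + 1} c_{i - j}`. -/
noncomputable def coeffL (t : ℕ → ℝ) : ℕ → ℝ
  | 0 => 1
  | i + 1 => (∑ j : Fin (i + 1), t (j + 1) * coeffL t (i - j)) / (i + 1)

open Classical in
/-- The coefficient `a_{k,p}` of the normalised `L`-polynomial `L(p ^ (- 1 / 2) T)` of the curve (`0` if `p` is not prime). -/
noncomputable def coeff (k p : ℕ) {D : ℕ} (a : Fin (D + 1) → ℤ) : ℝ :=
  if h : p.Prime then haveI : Fact p.Prime := ⟨h⟩; coeffL (trace p a) k / (p : ℝ) ^ ((k : ℝ) / 2) else 0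

/-- `p` is odd and the polynomial modulo `p` is separable and has degree `D`; then the curve has good reduction at `p`. -/
def Smooth (p : ℕ) {D : ℕ} (a : Fin (D + 1) → ℤ) : Prop :=
  p ≠ 2 ∧ ¬ (p : ℤ) ∣ a (Fin.last D) ∧
    (∑ i, Polynomial.C ((a i : ℤ) : ZMod p) * Polynomial.X ^ (i : ℕ) : Polynomial (ZMod p)).Separable

/-- The coefficients of `x ^ (2 g + 1) + n (2 g) x ^ (2 g) + ... + n 0`. -/
def monic {g : ℕ} (n : Fin (2 * g + 1) → ℕ) : Fin (2 * g + 1 + 1) → ℤ := Fin.snoc (fun i => (n i : ℤ)) 1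

open Classical in
/-- The sum of `(a_{1,p}) ^ m` over the primes `p ∈ P` of good reduction of `y ^ 2 = x ^ (2 g + 1) + n (2 g) x ^ (2 g) + ... + n 0`. -/
noncomputable def momentSum {g : ℕ} (P : Finset ℕ) (m : ℕ) (n : Fin (2 * g + 1) → ℕ) : ℝ :=
  ∑ p ∈ P.filter (fun p => Smooth p (monic n)), coeff 1 p (monic n) ^ m

/-- `(m - 1)!!` for even `m` and `0` for odd `m`; for `m ≤ 2 g + 1` this is the `m`-th moment of the trace of a random matrix
in `USp(2g)`. -/
noncomputable def normal (m : ℕ) : ℝ := if Even m then (Nat.doubleFactorial (m - 1) : ℝ) else 0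

/-- For all sets `P ∈ F` of primes and all `m ≤ 2 g + 1` the `m`-th moment of `a_{1,p}` is the predicted one. -/
def GoodMoments {g : ℕ} (δ : ℝ) (F : Finset (Finset ℕ)) (x : ℕ) (n : Fin (2 * g + 1) → ℕ) : Prop :=
  ∀ P ∈ F, ∀ m ≤ 2 * g + 1, |momentSum P m n - normal m * (P.card : ℝ)| ≤ Real.sqrt (P.card : ℝ) * (x : ℝ) ^ δ

/-- The digit number `i` (counted from the right, beginning with `0`) of `n` in base `b`. -/
def digit (b i n : ℕ) : ℕ := n / b ^ i % b

/-- The number which arises from the number `N` with at most `K` digits in base `b`, if for every `i ∈ S`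
the digit number `i` is replaced by `f i`. -/
def change (b K N : ℕ) (f : ℕ → ℕ) (S : Finset ℕ) : ℕ :=
  ∑ i ∈ range K, (if i ∈ S then f i else digit b i N) * b ^ i

open Classical in
/-- The number of the choices of `r l` of `K l` positions for all `l < d` for which the vector of the numbers obtained by
changing the digits of the `N l` at the chosen positions (according to `f l`) does not have the property `E`. -/
noncomputable def exceptions {d : ℕ} (b : ℕ) (K r N : Fin d → ℕ) (f : Fin d → ℕ → ℕ) (E : (Fin d → ℕ) → Prop) : ℕ :=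
  ((Fintype.piFinset (fun l => powersetCard (r l) (range (K l)))).filter
    (fun S => ¬ E (fun l => change b (K l) (N l) (f l) (S l)))).card

lemma exc_eq {d : ℕ} (b : ℕ) (K r N : Fin d → ℕ) (f : Fin d → ℕ → ℕ) (E : (Fin d → ℕ) → Prop) :
    exceptions b K r N f E = Pool.Agent.Y57.FD.exceptions b K r N f E := rfl

/-! ### Dependence on the residues -/

lemma coeff_congr {k p D : ℕ} {a a' : Fin (D + 1) → ℤ} (h : ∀ i, ((a i : ℤ) : ZMod p) = ((a' i : ℤ) : ZMod p)) :
    coeff k p a = coeff k p a' := by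
  unfold coeff
  by_cases hp : p.Prime
  · rw [dif_pos hp, dif_pos hp]
    haveI : Fact p.Prime := ⟨hp⟩
    have h1 : trace p a = trace p a' := by
      funext j
      unfold trace
      have h2 : (fun i => ((a i : ℤ) : GaloisField p j)) = fun i => ((a' i : ℤ) : GaloisField p j) := by
        funext i
        have h3 := h i
        rw [ZMod.intCast_eq_intCast_iff] at h3
        exact (CharP.intCast_eq_intCast (GaloisField p j) p).2 h3
      rw [h2]
    show coeffL (trace p a) k / _ = coeffL (trace p a') k / _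
    rw [h1]
  · rw [dif_neg hp, dif_neg hp]

lemma smooth_congr {p D : ℕ} {a a' : Fin (D + 1) → ℤ} (h : ∀ i, ((a i : ℤ) : ZMod p) = ((a' i : ℤ) : ZMod p)) :
    Smooth p a ↔ Smooth p a' := by
  unfold Smooth
  rw [← ZMod.intCast_zmod_eq_zero_iff_dvd, ← ZMod.intCast_zmod_eq_zero_iff_dvd, h (Fin.last D)]
  simp only [h]

lemma monic_mod {g : ℕ} (p : ℕ) (n : Fin (2 * g + 1) → ℕ) (i : Fin (2 * g + 1 + 1)) :
    ((monic n i : ℤ) : ZMod p) = ((monic (fun l => n l % p) i : ℤ) : ZMod p) := by
  unfold monic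
  refine Fin.lastCases ?_ (fun j => ?_) i
  · simp only [Fin.snoc_last]
  · simp only [Fin.snoc_castSucc]
    push_cast
    rfl

/-! ### The first coefficient -/

section One

variable (p : ℕ) [Fact p.Prime]

lemma points_equiv {k k' : Type} [Field k] [Field k'] (e : k ≃+* k') {D : ℕ} (a : Fin (D + 1) → ℤ) :
    points k (fun i => ((a i : ℤ) : k)) = points k' (fun i => ((a i : ℤ) : k')) := by
  unfold points
  congr 1
  · refine Nat.card_congr ((Equiv.prodCongr e.toEquiv e.toEquiv).subtypeEquiv ?_)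
    intro P
    show P.2 ^ 2 = ∑ i, ((a i : ℤ) : k) * P.1 ^ (i : ℕ) ↔ (e P.2) ^ 2 = ∑ i, ((a i : ℤ) : k') * (e P.1) ^ (i : ℕ)
    rw [← e.injective.eq_iff, map_pow, map_sum]
    simp only [map_mul, map_pow, map_intCast]
  · split_ifs with h
    · rfl
    · refine Nat.card_congr (e.toEquiv.subtypeEquiv ?_)
      intro z
      show z ^ 2 = ((a (Fin.last D) : ℤ) : k) ↔ (e z) ^ 2 = ((a (Fin.last D) : ℤ) : k')
      rw [← e.injective.eq_iff, map_pow, map_intCast]

lemma card_affine (hp : p ≠ 2) (f : ZMod p → ZMod p) :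
    (Nat.card {P : ZMod p × ZMod p // P.2 ^ 2 = f P.1} : ℝ) = (p : ℝ) + ∑ x : ZMod p, (quadraticChar (ZMod p) (f x) : ℝ) := by
  classical
  have hchar : ringChar (ZMod p) ≠ 2 := by
    rw [ZMod.ringChar_zmod_n]
    exact hp
  have h1 : Nat.card {P : ZMod p × ZMod p // P.2 ^ 2 = f P.1} = ∑ x : ZMod p, Nat.card {y : ZMod p // y ^ 2 = f x} := by
    rw [← Nat.card_sigma]
    refine Nat.card_congr ⟨fun P => ⟨P.1.1, ⟨P.1.2, P.2⟩⟩, fun P => ⟨(P.1, P.2.1), P.2.2⟩, fun _ => rfl, fun _ => rfl⟩
  have h2 : ∀ x : ZMod p, ((Nat.card {y : ZMod p // y ^ 2 = f x} : ℕ) : ℤ) = quadraticChar (ZMod p) (f x) + 1 := by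
    intro x
    rw [← quadraticChar_card_sqrts hchar (f x)]
    congr 1
    rw [Nat.card_eq_fintype_card, Fintype.card_subtype]
    congr 1
    ext y
    simp
  rw [h1]
  push_cast
  have h3 : ∀ x : ZMod p, ((Nat.card {y : ZMod p // y ^ 2 = f x} : ℕ) : ℝ) = (quadraticChar (ZMod p) (f x) : ℝ) + 1 := by
    intro x
    have := h2 x
    exact_mod_cast this
  rw [sum_congr rfl (fun x _ => h3 x), sum_add_distrib, sum_const, card_univ, ZMod.card, nsmul_eq_mul, mul_one]
  ring

lemma monic_eval {g : ℕ} (n : Fin (2 * g + 1) → ℕ) (x : ZMod p) :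
    ∑ i, ((monic n i : ℤ) : ZMod p) * x ^ (i : ℕ) = Pool.Agent.Y57.FD.Mom.val (ZMod p) (2 * g + 1) (fun i => (n i : ZMod p)) x := by
  rw [Fin.sum_univ_castSucc]
  unfold monic Pool.Agent.Y57.FD.Mom.val
  simp only [Fin.snoc_castSucc, Fin.snoc_last, Fin.val_castSucc, Fin.val_last]
  push_cast
  ring

lemma coeff_one (hp : p ≠ 2) {g : ℕ} (n : Fin (2 * g + 1) → ℕ) :
    coeff 1 p (monic n) = (∑ x : ZMod p, (quadraticChar (ZMod p)
      (Pool.Agent.Y57.FD.Mom.val (ZMod p) (2 * g + 1) (fun i => (n i : ZMod p)) x) : ℝ)) / Real.sqrt (Fintype.card (ZMod p)) := by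
  have hp' : p.Prime := Fact.out
  unfold coeff
  rw [dif_pos hp']
  show coeffL (trace p (monic n)) 1 / _ = _
  have h1 : coeffL (trace p (monic n)) 1 = trace p (monic n) 1 := by
    rw [coeffL]
    simp [coeffL]
  have h2 : trace p (monic n) 1 = ∑ x : ZMod p, (quadraticChar (ZMod p)
      (Pool.Agent.Y57.FD.Mom.val (ZMod p) (2 * g + 1) (fun i => (n i : ZMod p)) x) : ℝ) := by
    unfold trace
    rw [points_equiv (GaloisField.equivZmodP p).toRingEquiv]
    unfold points
    rw [if_pos ⟨g, rfl⟩]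
    push_cast
    rw [card_affine p hp (fun x => ∑ i, ((monic n i : ℤ) : ZMod p) * x ^ (i : ℕ))]
    simp only [monic_eval]
    ring
  rw [h1, h2, ZMod.card, Real.sqrt_eq_rpow]
  norm_num

/-- the polynomial with the coefficients `u` -/
noncomputable def pol {D : ℕ} (u : Fin D → ZMod p) : Polynomial (ZMod p) :=
  Polynomial.X ^ D + ∑ i, Polynomial.C (u i) * Polynomial.X ^ (i : ℕ)

lemma pol_eval {D : ℕ} (u : Fin D → ZMod p) (x : ZMod p) : (pol p u).eval x = Pool.Agent.Y57.FD.Mom.val (ZMod p) D u x := by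
  unfold pol Pool.Agent.Y57.FD.Mom.val
  simp [Polynomial.eval_finset_sum]

lemma deg_low {D : ℕ} (u : Fin D → ZMod p) : (∑ i, Polynomial.C (u i) * Polynomial.X ^ (i : ℕ) : Polynomial (ZMod p)).degree < D := by
  exact Polynomial.degree_sum_fin_lt u

lemma pol_monic {D : ℕ} (u : Fin D → ZMod p) : (pol p u).Monic := Polynomial.monic_X_pow_add (deg_low p u)

lemma pol_natDegree {D : ℕ} (u : Fin D → ZMod p) : (pol p u).natDegree = D := by
  apply Polynomial.natDegree_eq_of_degree_eq_some
  unfold pol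
  rw [Polynomial.degree_add_eq_left_of_degree_lt, Polynomial.degree_X_pow]
  rw [Polynomial.degree_X_pow]
  exact deg_low p u

/-- Weil's bound -/
lemma weil (hp : p ≠ 2) {g : ℕ} (u : Fin (2 * g + 1) → ZMod p) :
    |(∑ x : ZMod p, (quadraticChar (ZMod p) (Pool.Agent.Y57.FD.Mom.val (ZMod p) (2 * g + 1) u x) : ℝ)) /
      Real.sqrt (Fintype.card (ZMod p))| ≤ 2 * g := by
  have hp' : p.Prime := Fact.out
  have hchar : ringChar (ZMod p) ≠ 2 := by
    rw [ZMod.ringChar_zmod_n]
    exact hp
  have h1 := Pool.Agent.H341R2.Sharp.weil_sharp_monic hchar (pol_monic p u) (by rw [pol_natDegree]; omega) (by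
    intro c h hc
    have h2 := pol_natDegree p u
    have h3 : pol p u ≠ 0 := (pol_monic p u).ne_zero
    have hc0 : c ≠ 0 := by
      rintro rfl
      rw [Polynomial.C_0, zero_mul] at hc
      exact h3 hc
    rw [hc, Polynomial.natDegree_C_mul hc0, Polynomial.natDegree_pow] at h2
    omega)
  simp only [pol_eval, pol_natDegree] at h1
  have hq : (0 : ℝ) < Real.sqrt (Fintype.card (ZMod p)) := by
    apply Real.sqrt_pos.2
    rw [ZMod.card]
    exact_mod_cast hp'.pos
  rw [abs_div, abs_of_pos hq, div_le_iff₀ hq]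
  refine h1.trans (le_of_eq ?_)
  push_cast
  ring

/-- there are few polynomials which are not separable -/
lemma bad_fiber {g : ℕ} (hpg : 2 * g + 1 < p) (w : Fin (2 * g) → ZMod p) :
    {z : ZMod p | ¬ (pol p (D := 2 * g + 1) (Fin.cons z w)).Separable}.ncard ≤ 2 * g + 1 := by
  classical
  obtain ⟨h, hh⟩ : ∃ h : Polynomial (ZMod p), h = pol p (D := 2 * g + 1) (Fin.cons 0 w) := ⟨_, rfl⟩
  have hz : ∀ z : ZMod p, pol p (D := 2 * g + 1) (Fin.cons z w) = h + Polynomial.C z := by
    intro z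
    rw [hh]
    unfold pol
    rw [Fin.sum_univ_succ, Fin.sum_univ_succ (f := fun i => Polynomial.C ((Fin.cons 0 w : Fin (2 * g + 1) → ZMod p) i) * Polynomial.X ^ (i : ℕ))]
    simp only [Fin.cons_zero, Fin.cons_succ, Fin.val_zero, pow_zero, mul_one, Polynomial.C_0, zero_add]
    ring
  have hd : ∀ z : ZMod p, (pol p (D := 2 * g + 1) (Fin.cons z w)).derivative = h.derivative := by
    intro z
    rw [hz, Polynomial.derivative_add, Polynomial.derivative_C, add_zero]
  have hd0 : h.derivative ≠ 0 := by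
    intro h0
    have h1 := congrArg (fun f => f.coeff (2 * g)) h0
    simp only [Polynomial.coeff_derivative, Polynomial.coeff_zero] at h1
    have h2 : h.coeff (2 * g + 1) = 1 := by
      have h3 := pol_monic p (D := 2 * g + 1) (Fin.cons 0 w)
      rw [← hh] at h3
      have h4 := h3.coeff_natDegree
      have h5 := pol_natDegree p (D := 2 * g + 1) (Fin.cons 0 w)
      rw [← hh] at h5
      rwa [h5] at h4
    rw [h2, one_mul] at h1
    have h6 : (((2 * g + 1 : ℕ)) : ZMod p) = 0 := by
      push_cast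
      push_cast at h1
      exact h1
    rw [ZMod.natCast_eq_zero_iff] at h6
    have := Nat.le_of_dvd (by omega) h6
    omega
  have hdeg : h.derivative.natDegree ≤ 2 * g + 1 := by
    have h1 := Polynomial.natDegree_derivative_le h
    have h5 := pol_natDegree p (D := 2 * g + 1) (Fin.cons 0 w)
    rw [← hh] at h5
    omega
  obtain ⟨R, hR⟩ : ∃ R : Finset (AlgebraicClosure (ZMod p)), R = (h.derivative.aroots (AlgebraicClosure (ZMod p))).toFinset := ⟨_, rfl⟩
  have hRc : R.card ≤ 2 * g + 1 := by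
    rw [hR]
    refine (Multiset.toFinset_card_le _).trans ?_
    refine (Polynomial.card_roots' _).trans ?_
    refine (Polynomial.natDegree_map_le).trans hdeg
  have hsub : (algebraMap (ZMod p) (AlgebraicClosure (ZMod p))) '' {z : ZMod p | ¬ (pol p (D := 2 * g + 1) (Fin.cons z w)).Separable} ⊆
      ((R.image (fun β => -(Polynomial.aeval β h)) : Finset (AlgebraicClosure (ZMod p))) : Set (AlgebraicClosure (ZMod p))) := by
    rintro _ ⟨z, hz1, rfl⟩
    rw [Set.mem_ofPred_eq] at hz1
    unfold Polynomial.Separable at hz1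
    rw [Polynomial.isCoprime_iff_aeval_ne_zero_of_isAlgClosed (ZMod p) (AlgebraicClosure (ZMod p))] at hz1
    push Not at hz1
    obtain ⟨β, h1, h2⟩ := hz1
    rw [hd] at h2
    rw [hz, map_add, Polynomial.aeval_C] at h1
    rw [coe_image]
    refine ⟨β, ?_, ?_⟩
    · rw [hR, mem_coe, Multiset.mem_toFinset, Polynomial.mem_aroots]
      exact ⟨hd0, h2⟩
    · exact (eq_neg_of_add_eq_zero_right h1).symm
  rw [← Set.ncard_image_of_injective _ (algebraMap (ZMod p) (AlgebraicClosure (ZMod p))).injective]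
  refine (Set.ncard_le_ncard hsub (finite_toSet _)).trans ?_
  rw [Set.ncard_coe_finset]
  exact card_image_le.trans hRc

open Classical in
lemma bad_card {g : ℕ} (hpg : 2 * g + 1 < p) :
    ((univ : Finset (Fin (2 * g + 1) → ZMod p)).filter (fun u => ¬ (pol p u).Separable)).card ≤ (2 * g + 1) * p ^ (2 * g) := by
  have h1 : ((univ : Finset (Fin (2 * g + 1) → ZMod p)).filter (fun u => ¬ (pol p u).Separable)).card =
      ∑ w : Fin (2 * g) → ZMod p, ((univ : Finset (ZMod p)).filter (fun z => ¬ (pol p (D := 2 * g + 1) (Fin.cons z w)).Separable)).card := by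
    rw [card_filter]
    simp only [card_filter]
    rw [sum_comm, ← Fintype.sum_prod_type' (f := fun (z : ZMod p) (w : Fin (2 * g) → ZMod p) =>
      if ¬ (pol p (D := 2 * g + 1) (Fin.cons z w)).Separable then 1 else 0)]
    refine (Fintype.sum_equiv (Fin.consEquiv (fun _ : Fin (2 * g + 1) => ZMod p)) _ _ ?_).symm
    intro x
    rfl
  rw [h1]
  have h2 : ∀ w : Fin (2 * g) → ZMod p,
      ((univ : Finset (ZMod p)).filter (fun z => ¬ (pol p (D := 2 * g + 1) (Fin.cons z w)).Separable)).card ≤ 2 * g + 1 := by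
    intro w
    refine le_trans (le_of_eq ?_) (bad_fiber p hpg w)
    rw [← Set.ncard_coe_finset]
    congr 1
    ext z
    simp
  refine (sum_le_sum fun w _ => h2 w).trans (le_of_eq ?_)
  rw [sum_const, card_univ, Fintype.card_pi_const, ZMod.card, smul_eq_mul]
  ring

lemma smooth_iff (hp : p ≠ 2) {g : ℕ} (n : Fin (2 * g + 1) → ℕ) :
    Smooth p (monic n) ↔ (pol p (fun i => (n i : ZMod p))).Separable := by
  have hp' : p.Prime := Fact.out
  unfold Smooth
  have h1 : ¬ (p : ℤ) ∣ monic n (Fin.last (2 * g + 1)) := by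
    unfold monic
    rw [Fin.snoc_last]
    intro h
    have h2 := Int.le_of_dvd one_pos h
    have h3 : (2 : ℤ) ≤ p := by exact_mod_cast hp'.two_le
    omega
  have h2 : (∑ i, Polynomial.C ((monic n i : ℤ) : ZMod p) * Polynomial.X ^ (i : ℕ) : Polynomial (ZMod p)) =
      pol p (fun i => (n i : ZMod p)) := by
    rw [Fin.sum_univ_castSucc]
    unfold monic pol
    simp only [Fin.snoc_castSucc, Fin.snoc_last, Fin.val_castSucc, Fin.val_last]
    push_cast
    rw [Polynomial.C_1, one_mul, add_comm]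
  rw [h2]
  exact ⟨fun h => h.2.2, fun h => ⟨hp, h1, h⟩⟩

/-- sums over the vectors of residues -/
lemma sum_box {D : ℕ} (F : (Fin D → ZMod p) → ℝ) :
    ∑ n ∈ Pool.Agent.TH894.NE.box D p, F (fun i => (n i : ZMod p)) = ∑ u : Fin D → ZMod p, F u := by
  have hp' : p.Prime := Fact.out
  haveI : NeZero p := ⟨hp'.ne_zero⟩
  refine sum_nbij' (fun n i => (n i : ZMod p)) (fun u i => (u i).val) ?_ ?_ ?_ ?_ ?_
  · intro n _
    exact mem_univ _
  · intro u _
    rw [Pool.Agent.TH894.NE.mem_box]
    intro i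
    exact ZMod.val_lt (u i)
  · intro n hn
    rw [Pool.Agent.TH894.NE.mem_box] at hn
    funext i
    show ((n i : ZMod p)).val = n i
    rw [ZMod.val_natCast, Nat.mod_eq_of_lt (hn i)]
  · intro u _
    funext i
    show (((u i).val : ℕ) : ZMod p) = u i
    exact ZMod.natCast_zmod_val (u i)
  · intro n _
    rfl

end One

open Classical in
/-- the function whose sum over the primes is the moment -/
noncomputable def mom (g m p : ℕ) (n : Fin (2 * g + 1) → ℕ) : ℝ := if Smooth p (monic n) then coeff 1 p (monic n) ^ m else 0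

lemma normal_nonneg (m : ℕ) : 0 ≤ normal m := by
  unfold normal
  split_ifs <;> positivity

lemma mom_le {g : ℕ} (m p : ℕ) (n : Fin (2 * g + 1) → ℕ) : |mom g m p n| ≤ (2 * g + 1 : ℝ) ^ m := by
  unfold mom
  split_ifs with h
  · rw [abs_pow]
    by_cases hp : p.Prime
    · haveI : Fact p.Prime := ⟨hp⟩
      rw [coeff_one p h.1]
      refine pow_le_pow_left₀ (abs_nonneg _) ((weil p h.1 _).trans (by linarith)) m
    · unfold coeff
      rw [dif_neg hp, abs_zero]
      exact pow_le_pow_left₀ le_rfl (by positivity) m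
  · rw [abs_zero]
    positivity

/-- the local moments -/
lemma mom_mean (g m : ℕ) (hm : m ≤ 2 * g + 1) : ∃ C : ℝ, 0 ≤ C ∧ ∀ p : ℕ, p.Prime →
    |Pool.Agent.TH894.NE.mean (2 * g + 1) p (mom g m p) - normal m| ≤ C / p := by
  classical
  obtain ⟨C, hC0, hC⟩ := Pool.Agent.Y57.FD.Mom.main m
  obtain ⟨E, hE⟩ : ∃ E : ℝ, E = ((2 * g + 1 : ℝ) ^ m + normal m) * (2 * g + 2) + C + (2 * g + 1 : ℝ) ^ m * (2 * g + 1) := ⟨_, rfl⟩
  have hn0 := normal_nonneg m
  have hmean : ∀ p : ℕ, p.Prime → |Pool.Agent.TH894.NE.mean (2 * g + 1) p (mom g m p)| ≤ (2 * g + 1 : ℝ) ^ m := by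
    intro p hp
    have hp0 : (0 : ℝ) < p := by exact_mod_cast hp.pos
    unfold Pool.Agent.TH894.NE.mean
    rw [abs_mul, abs_of_pos (by positivity : (0 : ℝ) < 1 / (p : ℝ) ^ (2 * g + 1)), div_mul_eq_mul_div, one_mul,
      div_le_iff₀ (by positivity)]
    refine (abs_sum_le_sum_abs _ _).trans ((sum_le_sum fun n _ => mom_le m p n).trans ?_)
    rw [sum_const, Pool.Agent.TH894.NE.card_box, nsmul_eq_mul]
    push_cast
    rw [mul_comm]
  refine ⟨E, ?_, fun p hp => ?_⟩
  · rw [hE]
    positivity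
  · have hp0 : (0 : ℝ) < p := by exact_mod_cast hp.pos
    haveI : Fact p.Prime := ⟨hp⟩
    by_cases hbig : 2 * g + 1 < p ∧ p ≠ 2
    · obtain ⟨hpg, hp2⟩ := hbig
      have hchar : ringChar (ZMod p) ≠ 2 := by
        rw [ZMod.ringChar_zmod_n]
        exact hp2
      have h1 := hC (ZMod p) hchar (2 * g + 1) hm
      rw [ZMod.card] at h1
      have hnorm : Pool.Agent.Y57.FD.Mom.normal m = normal m := rfl
      rw [hnorm] at h1
      obtain ⟨S, hS⟩ : ∃ S : (Fin (2 * g + 1) → ZMod p) → ℝ, S = fun u => (∑ x : ZMod p, (quadraticChar (ZMod p)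
        (Pool.Agent.Y57.FD.Mom.val (ZMod p) (2 * g + 1) u x) : ℝ)) / Real.sqrt (Fintype.card (ZMod p)) := ⟨_, rfl⟩
      have hSw : ∀ u, |S u| ≤ 2 * g := by
        intro u
        rw [hS]
        exact weil p hp2 u
      have e1 : Pool.Agent.TH894.NE.mean (2 * g + 1) p (mom g m p) =
          (∑ u : Fin (2 * g + 1) → ZMod p, (if (pol p u).Separable then S u ^ m else 0)) / (p : ℝ) ^ (2 * g + 1) := by
        unfold Pool.Agent.TH894.NE.mean
        rw [← sum_box p (fun u => if (pol p u).Separable then S u ^ m else 0), one_div, inv_mul_eq_div]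
        congr 1
        apply sum_congr rfl
        intro n _
        unfold mom
        by_cases h2 : Smooth p (monic n)
        · rw [if_pos h2, if_pos ((smooth_iff p hp2 n).1 h2), coeff_one p hp2, hS]
        · rw [if_neg h2, if_neg (fun h3 => h2 ((smooth_iff p hp2 n).2 h3))]
      have e2 : (∑ u : Fin (2 * g + 1) → ZMod p, (if (pol p u).Separable then S u ^ m else 0)) =
          ∑ u : Fin (2 * g + 1) → ZMod p, S u ^ m -
            ∑ u ∈ (univ : Finset (Fin (2 * g + 1) → ZMod p)).filter (fun u => ¬ (pol p u).Separable), S u ^ m := by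
        rw [← sum_filter_add_sum_filter_not univ (fun u => (pol p u).Separable) (fun u => S u ^ m), add_sub_cancel_right, sum_filter]
      have e3 : |∑ u ∈ (univ : Finset (Fin (2 * g + 1) → ZMod p)).filter (fun u => ¬ (pol p u).Separable), S u ^ m| ≤
          (2 * g + 1 : ℝ) ^ m * ((2 * g + 1) * (p : ℝ) ^ (2 * g)) := by
        refine (abs_sum_le_sum_abs _ _).trans ?_
        have h3 : ∀ u ∈ (univ : Finset (Fin (2 * g + 1) → ZMod p)).filter (fun u => ¬ (pol p u).Separable), |S u ^ m| ≤ (2 * g + 1 : ℝ) ^ m := by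
          intro u _
          rw [abs_pow]
          exact pow_le_pow_left₀ (abs_nonneg _) ((hSw u).trans (by linarith)) m
        refine (sum_le_sum h3).trans ?_
        rw [sum_const, nsmul_eq_mul, mul_comm]
        apply mul_le_mul_of_nonneg_left _ (by positivity)
        have h4 := bad_card p (g := g) hpg
        have h5 : ((((univ : Finset (Fin (2 * g + 1) → ZMod p)).filter (fun u => ¬ (pol p u).Separable)).card : ℕ) : ℝ) ≤
            (((2 * g + 1) * p ^ (2 * g) : ℕ) : ℝ) := by
          exact_mod_cast h4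
        push_cast at h5
        exact h5
      have hS2 : ∑ u : Fin (2 * g + 1) → ZMod p, S u ^ m = ∑ u : Fin (2 * g + 1) → ZMod p, ((∑ x : ZMod p, (quadraticChar (ZMod p)
        (Pool.Agent.Y57.FD.Mom.val (ZMod p) (2 * g + 1) u x) : ℝ)) / Real.sqrt (p : ℝ)) ^ m := by
        rw [hS]
        simp only [ZMod.card]
      rw [e1, e2, sub_div, hS2]
      have h6 : |(∑ u ∈ (univ : Finset (Fin (2 * g + 1) → ZMod p)).filter (fun u => ¬ (pol p u).Separable), S u ^ m) /
          (p : ℝ) ^ (2 * g + 1)| ≤ (2 * g + 1 : ℝ) ^ m * (2 * g + 1) / p := by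
        rw [abs_div, abs_of_pos (by positivity : (0 : ℝ) < (p : ℝ) ^ (2 * g + 1)), div_le_iff₀ (by positivity)]
        refine e3.trans (le_of_eq ?_)
        rw [pow_succ (p : ℝ) (2 * g)]
        field_simp
      have h7 : E / p = ((2 * g + 1 : ℝ) ^ m + normal m) * (2 * g + 2) / p + C / p + (2 * g + 1 : ℝ) ^ m * (2 * g + 1) / p := by
        rw [hE]
        ring
      have h8 : 0 ≤ ((2 * g + 1 : ℝ) ^ m + normal m) * (2 * g + 2) / p := by positivity
      rw [h7]
      obtain ⟨X, hX⟩ : ∃ X : ℝ, X = (∑ u : Fin (2 * g + 1) → ZMod p, ((∑ x : ZMod p, (quadraticChar (ZMod p)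
        (Pool.Agent.Y57.FD.Mom.val (ZMod p) (2 * g + 1) u x) : ℝ)) / Real.sqrt (p : ℝ)) ^ m) / (p : ℝ) ^ (2 * g + 1) := ⟨_, rfl⟩
      obtain ⟨Y, hY⟩ : ∃ Y : ℝ, Y = (∑ u ∈ (univ : Finset (Fin (2 * g + 1) → ZMod p)).filter (fun u => ¬ (pol p u).Separable), S u ^ m) /
          (p : ℝ) ^ (2 * g + 1) := ⟨_, rfl⟩
      rw [← hX] at h1 ⊢
      rw [← hY] at h6 ⊢
      have h9 : |X - Y - normal m| ≤ |X - normal m| + |Y| := by
        have := abs_sub (X - normal m) Y
        rwa [show X - normal m - Y = X - Y - normal m by ring] at this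
      linarith
    · have hsmall : (p : ℝ) ≤ 2 * g + 2 := by
        have : p ≤ 2 * g + 2 := by
          by_contra hcon
          apply hbig
          omega
        exact_mod_cast this
      have h1 : |Pool.Agent.TH894.NE.mean (2 * g + 1) p (mom g m p) - normal m| ≤ (2 * g + 1 : ℝ) ^ m + normal m := by
        refine (abs_sub _ _).trans (add_le_add (hmean p hp) ?_)
        rw [abs_of_nonneg hn0]
      refine h1.trans ?_
      rw [le_div_iff₀ hp0, hE]
      have h2 : ((2 * g + 1 : ℝ) ^ m + normal m) * p ≤ ((2 * g + 1 : ℝ) ^ m + normal m) * (2 * g + 2) :=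
        mul_le_mul_of_nonneg_left hsmall (by positivity)
      have h3 : 0 ≤ (2 * g + 1 : ℝ) ^ m * (2 * g + 1) := by positivity
      linarith

/-- **The first moments of the Sato-Tate conjecture for hyperelliptic curves with few changed digits.**  Let a base `b ≥ 2`, the genus
`g`, `δ > 0` and an integer `A ≥ 0` be given.  There are `c > 0` and `y₀` such that for all integers `r l`, `K l` (`l ≤ 2 g`), `y` with
`2 r l ≤ K l` and `y ≥ y₀` the following holds.

Let `0 ≤ N l < b ^ K l` be arbitrary integers, prescribe for every position `j` a digit `f l j` different from the digit of `N l` in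
base `b`, and let `F x` be for every `x` a family of at most `x ^ A` arbitrary sets of primes up to `x`.  If one chooses `r l` of the `K l`
positions and replaces the digits of `N l` at these positions, then for all but at most a proportion `1 / y ^ A` of the choices the vector
`n` obtained has the following property for all integers `x` with `y ≤ x ≤ exp (c r l)` for all `l`: for all `P ∈ F x` and all
`m ≤ 2 g + 1` the sum of `(a_{1, p}) ^ m` over the primes `p ∈ P` of good reduction of the curve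
`y ^ 2 = x ^ (2 g + 1) + n (2 g) x ^ (2 g) + ... + n 0` is `|P|` times the `m`-th moment of the normal distribution, with an error of at
most `|P| ^ (1 / 2) x ^ δ`. -/
theorem result (b g : ℕ) (hb : 2 ≤ b) (δ : ℝ) (hδ : 0 < δ) (A : ℕ) : ∃ c : ℝ, 0 < c ∧ ∃ y₀ : ℕ,
    ∀ (K r : Fin (2 * g + 1) → ℕ) (y : ℕ), (∀ l, 2 * r l ≤ K l) → y₀ ≤ y →
    ∀ N : Fin (2 * g + 1) → ℕ, (∀ l, N l < b ^ K l) → ∀ f : Fin (2 * g + 1) → ℕ → ℕ, (∀ l j, f l j < b ∧ f l j ≠ digit b j (N l)) →
    ∀ F : ℕ → Finset (Finset ℕ), (∀ x, (F x).card ≤ x ^ A) → (∀ x, ∀ P ∈ F x, ∀ p ∈ P, p.Prime ∧ p ≤ x) →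
      (exceptions b K r N f (fun n => ∀ x : ℕ, y ≤ x → (∀ l, (x : ℝ) ≤ Real.exp (c * r l)) → GoodMoments δ (F x) x n) : ℝ) ≤
        1 / (y : ℝ) ^ A * ∏ l, ((K l).choose (r l) : ℝ) := by
  classical
  obtain ⟨c, hc, y₀, h⟩ := Pool.Agent.Y57.FD.lawF b (2 * g + 1) hb (by omega) (δ / 2) (by positivity) A (A + (2 * g + 2))
  -- the constants of the local moments
  have hch : ∀ m : ℕ, ∃ C : ℝ, 0 ≤ C ∧ (m ≤ 2 * g + 1 → ∀ p : ℕ, p.Prime →
      |Pool.Agent.TH894.NE.mean (2 * g + 1) p (mom g m p) - normal m| ≤ C / p) := by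
    intro m
    by_cases hm : m ≤ 2 * g + 1
    · obtain ⟨C, hC0, hC⟩ := mom_mean g m hm
      exact ⟨C, hC0, fun _ => hC⟩
    · exact ⟨0, le_rfl, fun h => absurd h hm⟩
  choose C hC0 hC using hch
  obtain ⟨C', hC'⟩ : ∃ C' : ℝ, C' = ∑ m ∈ range (2 * g + 2), C m := ⟨_, rfl⟩
  obtain ⟨W, hW⟩ : ∃ W : ℝ, W = (2 * g + 1 : ℝ) ^ (2 * g + 1) := ⟨_, rfl⟩
  have hW1 : 1 ≤ W := by
    rw [hW]
    exact one_le_pow₀ (by have : (0 : ℝ) ≤ g := Nat.cast_nonneg g; linarith)
  have hC'0 : 0 ≤ C' := by
    rw [hC']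
    exact sum_nonneg fun m _ => hC0 m
  -- the size of x
  have hx0 : ∃ x₀ : ℕ, ∀ x : ℕ, x₀ ≤ x → W * (x : ℝ) ^ (δ / 2) + C' * (1 + Real.log x) ≤ (x : ℝ) ^ δ := by
    have h1 : Filter.Tendsto (fun x : ℕ => ((x : ℝ)) ^ (δ / 2)) Filter.atTop Filter.atTop :=
      (tendsto_rpow_atTop (by positivity)).comp tendsto_natCast_atTop_atTop
    have h2 : (fun x : ℕ => Real.log (x : ℝ)) =o[Filter.atTop] (fun x : ℕ => ((x : ℝ)) ^ (δ / 2)) :=
      (isLittleO_log_rpow_atTop (by positivity : 0 < δ / 2)).comp_tendsto tendsto_natCast_atTop_atTop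
    have h3 := h2.bound (c := 1) one_pos
    have h4 := h1.eventually_ge_atTop (W + 2 * C')
    have h5 := h1.eventually_ge_atTop 1
    obtain ⟨x₀, hx₀⟩ := Filter.eventually_atTop.1 (h3.and (h4.and (h5.and (Filter.eventually_ge_atTop 1))))
    refine ⟨x₀, fun x hx => ?_⟩
    obtain ⟨h6, h7, h8, h9⟩ := hx₀ x hx
    have hx1 : (1 : ℝ) ≤ x := by exact_mod_cast h9
    have hxp : (0 : ℝ) < x := by linarith
    have hlog : Real.log x ≤ (x : ℝ) ^ (δ / 2) := by
      rw [Real.norm_eq_abs, Real.norm_eq_abs, abs_of_nonneg (Real.log_nonneg hx1), abs_of_nonneg (by positivity), one_mul] at h6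
      exact h6
    have h10 : (x : ℝ) ^ δ = (x : ℝ) ^ (δ / 2) * (x : ℝ) ^ (δ / 2) := by
      rw [← Real.rpow_add hxp]
      congr 1
      ring
    rw [h10]
    calc W * (x : ℝ) ^ (δ / 2) + C' * (1 + Real.log x) ≤ W * (x : ℝ) ^ (δ / 2) + C' * ((x : ℝ) ^ (δ / 2) + (x : ℝ) ^ (δ / 2)) := by
          apply add_le_add le_rfl
          exact mul_le_mul_of_nonneg_left (by linarith) hC'0
      _ = (W + 2 * C') * (x : ℝ) ^ (δ / 2) := by ring
      _ ≤ (x : ℝ) ^ (δ / 2) * (x : ℝ) ^ (δ / 2) := mul_le_mul_of_nonneg_right h7 (by positivity)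
  obtain ⟨x₀, hx₀⟩ := hx0
  refine ⟨c, hc, y₀ + 2 + x₀, fun K r y hrK hy N hN f hf F hF hFP => ?_⟩
  rw [exc_eq]
  refine h K r y hrK (by omega) N hN f hf (Finset ℕ × ℕ) (fun x => (F x) ×ˢ range (2 * g + 2)) ?_
    (fun x l => if l.1 ∈ F x then l.1 else ∅) ?_
    (fun l p n => if l.2 ≤ 2 * g + 1 then mom g l.2 p n / W else 0) ?_ ?_ _ ?_
  · intro x hx
    rw [card_product, card_range, pow_add]
    refine Nat.mul_le_mul (hF x) ?_
    have h1 : 2 * g + 2 < 2 ^ (2 * g + 2) := Nat.lt_two_pow_self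
    have h2 : 2 ^ (2 * g + 2) ≤ x ^ (2 * g + 2) := Nat.pow_le_pow_left hx _
    omega
  · intro x l p hp
    by_cases hl : l.1 ∈ F x
    · rw [if_pos hl] at hp
      exact hFP x l.1 hl p hp
    · rw [if_neg hl] at hp
      exact absurd hp (notMem_empty p)
  · intro l p _ n
    have h1 : mom g l.2 p n = mom g l.2 p (fun i => n i % p) := by
      unfold mom
      by_cases h2 : Smooth p (monic n)
      · rw [if_pos h2, if_pos ((smooth_congr (monic_mod p n)).1 h2), coeff_congr (monic_mod p n)]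
      · rw [if_neg h2, if_neg (fun h3 => h2 ((smooth_congr (monic_mod p n)).2 h3))]
    show (if l.2 ≤ 2 * g + 1 then mom g l.2 p n / W else 0) = (if l.2 ≤ 2 * g + 1 then mom g l.2 p (fun i => n i % p) / W else 0)
    rw [h1]
  · intro l p n
    show |if l.2 ≤ 2 * g + 1 then mom g l.2 p n / W else 0| ≤ 1
    split_ifs with h1
    · rw [abs_div, abs_of_pos (by linarith : 0 < W), div_le_one (by linarith)]
      refine (mom_le l.2 p n).trans ?_
      rw [hW]
      exact pow_le_pow_right₀ (by have : (0 : ℝ) ≤ g := Nat.cast_nonneg g; linarith) h1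
    · rw [abs_zero]
      exact zero_le_one
  · intro n hn x hyx hxr P hP m hm
    have hW0 : 0 < W := by linarith
    have h1 := hn x (by omega) hyx hxr (P, m) (by
      rw [mem_product]
      exact ⟨hP, mem_range.2 (by omega)⟩)
    simp only [if_pos hP, if_pos hm] at h1
    have hms : momentSum P m n = ∑ p ∈ P, mom g m p n := by
      unfold momentSum mom
      rw [sum_filter]
    rcases P.eq_empty_or_nonempty with hPe | hPn
    · rw [hms, hPe]
      simp
    have hP1 : (1 : ℝ) ≤ (P.card : ℝ) := by exact_mod_cast hPn.card_pos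
    have hx1 : (1 : ℝ) ≤ x := by exact_mod_cast (by omega : 1 ≤ x)
    -- the variance
    have hvar : ∑ p ∈ P, Pool.Agent.TH894.NE.mean (2 * g + 1) p (fun n => (mom g m p n / W) ^ 2) ≤ (P.card : ℝ) := by
      rw [card_eq_sum_ones]
      push_cast
      apply sum_le_sum
      intro p hp
      have hpp := (hFP x P hP p hp).1
      have hp0 : (0 : ℝ) < p := by exact_mod_cast hpp.pos
      unfold Pool.Agent.TH894.NE.mean
      rw [div_mul_eq_mul_div, one_mul, div_le_iff₀ (by positivity), one_mul]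
      have h2 : ∀ n ∈ Pool.Agent.TH894.NE.box (2 * g + 1) p, (mom g m p n / W) ^ 2 ≤ 1 := by
        intro n _
        rw [← sq_abs]
        apply pow_le_one₀ (abs_nonneg _)
        rw [abs_div, abs_of_pos hW0, div_le_one hW0]
        refine (mom_le m p n).trans ?_
        rw [hW]
        exact pow_le_pow_right₀ (by have : (0 : ℝ) ≤ g := Nat.cast_nonneg g; linarith) hm
      refine (sum_le_sum h2).trans ?_
      rw [sum_const, Pool.Agent.TH894.NE.card_box, nsmul_eq_mul, mul_one]
      push_cast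
      exact le_rfl
    have h3 : Real.sqrt (max 1 (∑ p ∈ P, Pool.Agent.TH894.NE.mean (2 * g + 1) p (fun n => (mom g m p n / W) ^ 2))) ≤
        Real.sqrt (P.card : ℝ) := Real.sqrt_le_sqrt (max_le hP1 hvar)
    have h4 : |∑ p ∈ P, mom g m p n / W - ∑ p ∈ P, Pool.Agent.TH894.NE.mean (2 * g + 1) p (fun n => mom g m p n / W)| ≤
        Real.sqrt (P.card : ℝ) * (x : ℝ) ^ (δ / 2) := h1.trans (mul_le_mul_of_nonneg_right h3 (by positivity))
    -- the means
    have h5 : ∀ p, Pool.Agent.TH894.NE.mean (2 * g + 1) p (fun n => mom g m p n / W) =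
        Pool.Agent.TH894.NE.mean (2 * g + 1) p (mom g m p) / W := by
      intro p
      unfold Pool.Agent.TH894.NE.mean
      rw [← sum_div, mul_div_assoc]
    have h6 : |∑ p ∈ P, mom g m p n - ∑ p ∈ P, Pool.Agent.TH894.NE.mean (2 * g + 1) p (mom g m p)| ≤
        W * (Real.sqrt (P.card : ℝ) * (x : ℝ) ^ (δ / 2)) := by
      rw [sum_congr rfl (fun p _ => h5 p), ← sum_div, ← sum_div, ← sub_div, abs_div, abs_of_pos hW0, div_le_iff₀ hW0] at h4
      linarith
    have h7 : |∑ p ∈ P, Pool.Agent.TH894.NE.mean (2 * g + 1) p (mom g m p) - normal m * (P.card : ℝ)| ≤ C' * (1 + Real.log x) := by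
      have h8 : ∑ p ∈ P, Pool.Agent.TH894.NE.mean (2 * g + 1) p (mom g m p) - normal m * (P.card : ℝ) =
          ∑ p ∈ P, (Pool.Agent.TH894.NE.mean (2 * g + 1) p (mom g m p) - normal m) := by
        rw [sum_sub_distrib, sum_const, nsmul_eq_mul]
        ring
      rw [h8]
      refine (abs_sum_le_sum_abs _ _).trans ?_
      have h9 : ∀ p ∈ P, |Pool.Agent.TH894.NE.mean (2 * g + 1) p (mom g m p) - normal m| ≤ C' * (p : ℝ)⁻¹ := by
        intro p hp
        refine (hC m hm p (hFP x P hP p hp).1).trans ?_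
        rw [div_eq_mul_inv]
        apply mul_le_mul_of_nonneg_right _ (by positivity)
        rw [hC']
        exact single_le_sum (f := C) (fun i _ => hC0 i) (mem_range.2 (by omega))
      refine (sum_le_sum h9).trans ?_
      rw [← mul_sum]
      apply mul_le_mul_of_nonneg_left _ hC'0
      have h10 : ∑ p ∈ P, ((p : ℕ) : ℝ)⁻¹ ≤ ∑ i ∈ Icc 1 x, ((i : ℕ) : ℝ)⁻¹ := by
        apply sum_le_sum_of_subset_of_nonneg
        · intro p hp
          rw [mem_Icc]
          exact ⟨(hFP x P hP p hp).1.one_lt.le, (hFP x P hP p hp).2⟩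
        · intro i _ _
          positivity
      refine h10.trans ?_
      have h11 := harmonic_le_one_add_log x
      rw [harmonic_eq_sum_Icc] at h11
      push_cast at h11
      exact h11
    have h12 := hx₀ x (by omega)
    have h13 : 1 ≤ Real.sqrt (P.card : ℝ) := Real.one_le_sqrt.2 hP1
    rw [hms]
    have h14 : |∑ p ∈ P, mom g m p n - normal m * (P.card : ℝ)| ≤
        W * (Real.sqrt (P.card : ℝ) * (x : ℝ) ^ (δ / 2)) + C' * (1 + Real.log x) := by
      have := abs_add_le (∑ p ∈ P, mom g m p n - ∑ p ∈ P, Pool.Agent.TH894.NE.mean (2 * g + 1) p (mom g m p))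
        (∑ p ∈ P, Pool.Agent.TH894.NE.mean (2 * g + 1) p (mom g m p) - normal m * (P.card : ℝ))
      rw [sub_add_sub_cancel] at this
      linarith
    refine h14.trans ?_
    have h15 : 0 ≤ C' * (1 + Real.log x) := mul_nonneg hC'0 (by have := Real.log_nonneg hx1; linarith)
    calc W * (Real.sqrt (P.card : ℝ) * (x : ℝ) ^ (δ / 2)) + C' * (1 + Real.log x)
        ≤ W * (Real.sqrt (P.card : ℝ) * (x : ℝ) ^ (δ / 2)) + Real.sqrt (P.card : ℝ) * (C' * (1 + Real.log x)) := by
          apply add_le_add le_rfl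
          exact le_mul_of_one_le_left h15 h13
      _ = Real.sqrt (P.card : ℝ) * (W * (x : ℝ) ^ (δ / 2) + C' * (1 + Real.log x)) := by ring
      _ ≤ Real.sqrt (P.card : ℝ) * (x : ℝ) ^ δ := mul_le_mul_of_nonneg_left h12 (by positivity)

end Pool.Agent.Results.MP_3da4c4_nt.FewDigitMoments
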