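import Pool.Agent.Y722.HM.Global

/-!
# The Sato-Tate law in the stable range for almost all hyperelliptic curves of genus `g`

`C_c : y² = x^{2g+1} + c_{2g} x^{2g} + ⋯ + c_0` with `c ∈ [-H, H]^{2g+1}`.  For `∑ j m_j ≤ 2g + 1` the
number `graphNumber m` is the integral of `∏ X_j^{m_j}` over `USp(2g)` (the invariants of
`⊗ (Λ^j V)^{⊗ m_j}`, by the two fundamental theorems for `Sp(2g)`).
-/

set_option autoImplicit false

namespace Pool.Agent.Results.MP_3da4c4_nt.StableMoments

open Pool.Agent.Y722.HS Pool.Agent.Y722.HM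

open Classical in
/-- Let `g` be a natural number.
1. In mean square over the curves `C_c` with coefficients at most `H`, all joint moments
   `∏ a_{j,p}^{m_j}`, `∑ j m_j ≤ 2g + 1`, over the primes of good reduction below `T`, weighted with any
   `w_p` of absolute value at most `1`, differ from the predicted value by `O(√T log² T)` for all
   `T ≤ (H/8)^{1/4}` (the exponents and `T` may be chosen for every curve), with a constant that depends
   on `g` only.
2. For every `δ > 0` all but a share `δ` of the curves satisfy this estimate for all these `T` and all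
   these exponents at the same time. -/
theorem result (g : ℕ) :
    (∃ C : ℝ, ∀ w : ℕ → ℝ, (∀ p, |w p| ≤ 1) →
      ∀ (H : ℕ) (T : (Fin (2 * g + 1) → ℤ) → ℕ) (m : (Fin (2 * g + 1) → ℤ) → Fin g → ℕ),
        (∀ c, 2 ≤ T c ∧ 8 * T c ^ 4 ≤ H ∧ ∑ j : Fin g, (j + 1) * m c j ≤ 2 * g + 1) →
        ∑ c ∈ box (Fin (2 * g + 1)) H, dev g w (m c) c (T c) ^ 2 / (T c * Real.log (T c) ^ 4) ≤
          C * (box (Fin (2 * g + 1)) H).card) ∧
    ∀ δ : ℝ, 0 < δ → ∃ C : ℝ, ∀ w : ℕ → ℝ, (∀ p, |w p| ≤ 1) →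
      ∀ H : ℕ, (((box (Fin (2 * g + 1)) H).filter fun c => ∃ (T : ℕ) (m : Fin g → ℕ),
        2 ≤ T ∧ 8 * T ^ 4 ≤ H ∧ ∑ j : Fin g, (j + 1) * m j ≤ 2 * g + 1 ∧
        C * Real.sqrt T * Real.log T ^ 2 < |dev g w m c T|).card : ℝ) ≤
          δ * (box (Fin (2 * g + 1)) H).card :=
  ⟨main g, fun δ hδ => almost_all g δ hδ⟩

end Pool.Agent.Results.MP_3da4c4_nt.StableMoments
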